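import Pool.Agent.MWBN.Stmts

/-!
# Squad MWBN, row ELN: insertion of `a^n` behind a word of multiple letters
-/

set_option autoImplicit false

namespace Pool.Agent.MWBN.H2

open Pool.Agent.Helper14_MV Pool.Agent.Helper2_MV Pool.Agent.MVO Pool.Agent.MWL Pool.Agent.MWS

theorem eln (h1 : IdnStmt) (h2 : EwnStmt) : ElnStmt := by
  intro n β hβ w
  induction w with
  | nil =>
    intro p q a ha _
    have h3 := h1 n β hβ.pos hβ.ap hβ.be p q a (Or.inr ha) 1
    rw [Nat.mul_one, List.replicate_succ] at h3
    exact h3
  | cons b w ih =>
    intro p q a ha hc
    have hb : b ∈ p ∨ b ∈ w ++ q := by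
      by_cases hab : b = a
      · exact Or.inr (List.mem_append_right _ (hab ▸ ha))
      · by_contra hcon
        rw [not_or] at hcon
        have h3 := hc b (by simp)
        rw [List.count_append, List.cons_append, List.count_cons, List.count_cons_self,
          List.count_eq_zero_of_not_mem hcon.1, List.count_eq_zero_of_not_mem hcon.2] at h3
        have h4 : ¬ (a == b) = true := by simpa using fun h : a = b => hab h.symm
        rw [if_neg h4] at h3
        omega
    have hb' : b ∈ p ∨ b ∈ w ++ (List.replicate n a ++ q) := by
      rcases hb with hb | hb
      · exact Or.inl hb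
      · right
        rcases List.mem_append.1 hb with hb | hb
        · exact List.mem_append_left _ hb
        · exact List.mem_append_right _ (List.mem_append_right _ hb)
    have e1 := h2 n β hβ p (w ++ q) a b (List.mem_append_right _ ha) hb
    have e3 := h2 n β hβ p (w ++ (List.replicate n a ++ q)) a b
      (List.mem_append_right _ (List.mem_append_right _ ha)) hb'
    obtain ⟨n', rfl⟩ : ∃ n', n = n' + 1 := ⟨n - 1, by have := hβ.pos; omega⟩
    have hrep : List.replicate (n' + 1) a = List.replicate n' a ++ [a] := by
      rw [← List.replicate_succ']
    have key : ∀ t : List ℕ, p ++ a :: b :: (List.replicate (n' + 1) a ++ t) =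
        (p ++ a :: b :: List.replicate n' a) ++ a :: t := by
      intro t
      rw [hrep]
      simp [List.append_assoc]
    have e2 := ih (p ++ a :: b :: List.replicate n' a) q a ha (by
      intro c hcw
      have h3 := hc c (List.mem_cons_of_mem _ hcw)
      simp only [List.count_append, List.count_cons, List.cons_append] at h3 ⊢
      omega)
    rw [← key, ← key] at e2
    simp only [List.cons_append]
    exact β.trans (β.trans e1 e2) e3.symm

end Pool.Agent.MWBN.H2
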